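import Mathlib
import Pool.Agent.R234.MZ.J

set_option autoImplicit false

open MeasureTheory Filter Topology Set
open scoped ENNReal NNReal

namespace Pool.Agent.Results.MP_945c9c_an.MeanZeroWeights

open Pool.Agent.R234.MZ

/-- A weight `U` is admissible if and only if `U` itself, or the quotient `U / |x - ζ|^p` for some
complex number `ζ`, satisfies the inequality for all `f ∈ L¹(ℝ)` (no mean value condition); and the
latter property of a measurable weight implies Muckenhoupt's condition. -/
theorem result (p : ℝ) (hp : 1 < p) :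
    (∀ U : ℝ → ℝ≥0, IsWeight U →
      (Admissible p U ↔ Unrestricted p U ∨ ∃ ζ : ℂ, Unrestricted p (quot p U ζ))) ∧
    ∀ W : ℝ → ℝ≥0, Measurable W → Unrestricted p W → IsAp p W := by
  refine ⟨fun U hU => ⟨fun hA => ?_, ?_⟩, fun W hW h => isAp_of_unrestricted hp hW h⟩
  · by_cases hfin : ∫⁻ x, dual p U x ≠ ⊤
    · exact Or.inr ⟨Complex.I, case_integrable hp hU hA hfin⟩
    · rcases trichotomy (p := p) (U := U) hfin with h | ⟨x₀, h⟩
      · exact Or.inl (case_infty hp hU.1 hA h)
      · exact Or.inr ⟨x₀, case_point hp hU.1 hA x₀ h⟩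
  · rintro (⟨C, hC⟩ | ⟨ζ, h⟩)
    · exact ⟨C, fun f hf _ => hC f hf⟩
    · exact sufficient hp hU ζ h

end Pool.Agent.Results.MP_945c9c_an.MeanZeroWeights
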